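import Pool.Agent.H76.HMS.ExStmts

/-!
# HMS, module ECM: the constants of the exploration
-/

set_option autoImplicit false

namespace Pool.HMS

open TMLib Finset

/-- Partial sums. -/
def psum (F : ℕ → ℕ) : ℕ → ℕ
  | 0 => F 0
  | n + 1 => psum F n + F (n + 1)

theorem psum_primrec {F : ℕ → ℕ} (hF : Primrec F) : Primrec (psum F) := by
  have h : Primrec (fun n : ℕ => (Nat.rec (F 0) (fun n ih => ih + F (n + 1)) n : ℕ)) := by
    refine Primrec.nat_rec₁ (f := fun n ih => ih + F (n + 1)) (F 0) ?_
    exact Primrec.nat_add.comp Primrec.snd (hF.comp (Primrec.succ.comp Primrec.fst))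
  refine h.of_eq fun n => ?_
  induction n with
  | zero => rfl
  | succ n ih => simp only [psum]; rw [← ih]

theorem le_psum (F : ℕ → ℕ) : ∀ {D e : ℕ}, e ≤ D → F e ≤ psum F D := by
  intro D
  induction D with
  | zero => intro e he; obtain rfl : e = 0 := by omega
            exact le_rfl
  | succ D ih =>
    intro e he
    rcases Nat.lt_or_ge e (D + 1) with h | h
    · have := ih (Nat.lt_succ_iff.1 h)
      simp only [psum]; omega
    · obtain rfl : e = D + 1 := by omega
      simp only [psum]; omega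

theorem nat_pow_primrec {f g : ℕ → ℕ} (hf : Primrec f) (hg : Primrec g) :
    Primrec (fun n => f n ^ g n) := by
  have h1 : Primrec₂ (fun a b : ℕ => a ^ b) := Primrec₂.unpaired'.1 Nat.Primrec.pow
  exact h1.comp hf hg

theorem ecm_thm : S_ECM := by
  rintro wd cr ⟨Fw, hFw, hw⟩ ⟨Fc, hFc, hc⟩
  have hC : Primrec (fun D => psum Fc D + (2 * D + 5)) :=
    Primrec.nat_add.comp (psum_primrec hFc)
      (Primrec.nat_add.comp (Primrec.nat_mul.comp (Primrec.const 2) Primrec.id) (Primrec.const 5))
  have hW : Primrec (fun D => psum Fw D + 1) :=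
    Primrec.nat_add.comp (psum_primrec hFw) (Primrec.const 1)
  have hB : Primrec (fun D => (psum Fw D + 1) +
      (1000 * (D + 2) ^ 2 * (psum Fc D + (2 * D + 5)) ^ (D + 1) +
        (psum Fw D + 1 + 2) ^ (D + 1))) := by
    refine Primrec.nat_add.comp hW (Primrec.nat_add.comp ?_ ?_)
    · refine Primrec.nat_mul.comp (Primrec.nat_mul.comp (Primrec.const 1000) ?_) ?_
      · exact nat_pow_primrec (Primrec.nat_add.comp Primrec.id (Primrec.const 2))
          (Primrec.const 2)
      · exact nat_pow_primrec hC Primrec.succ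
    · exact nat_pow_primrec (Primrec.nat_add.comp hW (Primrec.const 2)) Primrec.succ
  refine ⟨fun D => psum Fc D + (2 * D + 5), fun D => psum Fw D + 1, _,
    ⟨_, hB, fun n => le_rfl⟩, fun D => ⟨?_, ?_, ?_, ?_, ?_, ?_⟩⟩
  · show 1 ≤ psum Fc D + (2 * D + 5)
    omega
  · intro e he
    have h1 := hc e
    have h2 := le_psum Fc he
    show cr e + 2 * D + 5 ≤ psum Fc D + (2 * D + 5)
    omega
  · intro e he
    have h1 := hw e
    have h2 := le_psum Fw he
    show wd e + 1 ≤ psum Fw D + 1
    omega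
  · show psum Fw D + 1 ≤ _
    omega
  · show 1000 * (D + 2) ^ 2 * (psum Fc D + (2 * D + 5)) ^ (D + 1) ≤ _
    omega
  · show (psum Fw D + 1 + 2) ^ (D + 1) ≤ _
    omega

end Pool.HMS
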