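import Pool.Agent.H76.HMS.ExStmts

/-!
# HMS, module EID: the root of the exploration
-/

set_option autoImplicit false

namespace Pool.HMS

open TMLib Finset

theorem fn_tab42 (n : ℕ) (f : ℕ → ℚ) (i : ℕ) : fn (tab n f) i = if i < n then f i else 0 := by
  unfold fn tab
  rw [List.getD_eq_getElem?_getD, List.getElem?_map]
  by_cases h : i < n
  · rw [List.getElem?_eq_getElem (by simpa using h)]
    simp [h]
  · rw [List.getElem?_eq_none (by simpa using h)]
    simp [h]

theorem ent_idMat42 (n i j : ℕ) :
    ent (idMat n) i j = if i < n ∧ j = i + 1 then 1 else 0 := by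
  unfold ent idMat
  rw [List.getD_eq_getElem?_getD, List.getElem?_map]
  by_cases h : i < n
  · rw [List.getElem?_eq_getElem (by simpa using h)]
    simp only [Option.map_some, Option.getD_some, List.getElem_range]
    rw [fn_tab42]
    by_cases h2 : j = i + 1
    · subst h2; simp [h]
    · simp [h2]
  · rw [List.getElem?_eq_none (by simpa using h)]
    simp [h, fn]

theorem eid_thm : S_EID := by
  intro C D B hC hB h2
  have hent : ∀ i j, ent (idMat D) i j = 0 ∨ ent (idMat D) i j = 1 := by
    intro i j
    rw [ent_idMat42]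
    split_ifs
    · right; rfl
    · left; rfl
  refine ⟨le_rfl, ?_, ?_, ?_, hB, h2, ?_, ?_⟩
  · show (idMat D).length = D
    simp [idMat]
  · intro r hr
    have hr' : r ∈ idMat D := hr
    unfold idMat at hr'
    rw [List.mem_map] at hr'
    obtain ⟨i, -, rfl⟩ := hr'
    show (tab (D + 1) _).length = D + 1
    simp [tab]
  · intro i j
    show IsI (ent (idMat D) i j)
    rcases hent i j with h | h
    · exact ⟨0, by rw [h]; simp⟩
    · exact ⟨1, by rw [h]; simp⟩
  · show B ≤ B ^ (C ^ (D - D))
    simp
  · intro i j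
    show |ent (idMat D) i j| ≤ B ^ (2 * C ^ (D - D + 1))
    have h1 : (1 : ℚ) ≤ B ^ (2 * C ^ (D - D + 1)) := one_le_pow₀ (by linarith)
    rcases hent i j with h | h
    · rw [h, abs_zero]; linarith
    · rw [h, abs_one]; exact h1

end Pool.HMS
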