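import Pool.Agent.H76.HMS.ExStmts

/-!
# HMS, modules EKL and EID: list of admissible values, the root of the exploration
-/

set_option autoImplicit false

namespace Pool.HMS

open TMLib Finset

theorem kList_eq42 (b : ℕ) (k0 k1 : ℚ) : kList b k0 k1 =
    ((List.range b).map fun i : ℕ => k0 + (i : ℚ)).filter (fun k => decide (k ≤ k1)) := by
  unfold kList
  congr 1
  have h : ∀ l : List ℕ, List.flatMap (fun a : ℕ => [k0 + (a : ℚ)]) l =
      List.map (fun i : ℕ => k0 + (i : ℚ)) l := by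
    intro l
    induction l with
    | nil => rfl
    | cons a l ih => rw [List.flatMap_cons, ih]; rfl
  simp [List.map_flatMap, h]

theorem ekl_thm : S_EKL := by
  rintro b k0 k1 ⟨z0, hz0⟩ ⟨z1, hz1⟩ hb
  subst hz0 hz1
  have hmem : ∀ k : ℚ, k ∈ kList b (z0 : ℚ) (z1 : ℚ) ↔
      ∃ i < b, k = (z0 : ℚ) + (i : ℚ) ∧ k ≤ z1 := by
    intro k
    rw [kList_eq42, List.mem_filter, List.mem_map]
    constructor
    · rintro ⟨⟨i, hi, rfl⟩, h⟩
      exact ⟨i, List.mem_range.1 hi, rfl, by simpa using h⟩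
    · rintro ⟨i, hi, rfl, h⟩
      exact ⟨⟨i, List.mem_range.2 hi, rfl⟩, by simpa using h⟩
  refine ⟨fun k => ?_, ?_⟩
  · rw [hmem]
    constructor
    · rintro ⟨i, hi, rfl, h⟩
      refine ⟨⟨z0 + i, by push_cast; ring⟩, ?_, h⟩
      have : (0 : ℚ) ≤ i := Nat.cast_nonneg i
      linarith
    · rintro ⟨⟨z, rfl⟩, h0, h1⟩
      have h0' : z0 ≤ z := by exact_mod_cast h0
      have h1' : z ≤ z1 := by exact_mod_cast h1
      refine ⟨(z - z0).toNat, ?_, ?_, h1⟩
      · have h2 : ((z1 - z0 : ℤ) : ℚ) < ((b : ℤ) : ℚ) := by push_cast; exact hb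
        have h3 : z1 - z0 < (b : ℤ) := by exact_mod_cast h2
        omega
      · have h4 : (((z - z0).toNat : ℕ) : ℤ) = z - z0 := Int.toNat_of_nonneg (by omega)
        have h5 : (((z - z0).toNat : ℕ) : ℚ) = ((z - z0 : ℤ) : ℚ) := by exact_mod_cast h4
        rw [h5]; push_cast; ring
  · have hlen : (kList b (z0 : ℚ) (z1 : ℚ)).length =
        ((List.range b).filter fun i : ℕ => decide ((z0 : ℚ) + (i : ℚ) ≤ z1)).length := by
      rw [kList_eq42, List.filter_map, List.length_map]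
      rfl
    rw [hlen]
    set L := (List.range b).filter fun i : ℕ => decide ((z0 : ℚ) + (i : ℚ) ≤ z1) with hL
    have hnd : L.Nodup := (List.nodup_range).filter _
    have hsub : L ⊆ List.range (z1 - z0 + 1).toNat := by
      intro i hi
      rw [hL, List.mem_filter] at hi
      have h1 : (z0 : ℚ) + (i : ℚ) ≤ z1 := by simpa using hi.2
      have h2 : z0 + (i : ℤ) ≤ z1 := by exact_mod_cast h1
      rw [List.mem_range]
      omega
    have hle : L.length ≤ (z1 - z0 + 1).toNat := by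
      have := (hnd.subperm hsub).length_le
      simpa using this
    have h6 : ((L.length : ℕ) : ℚ) ≤ (((z1 - z0 + 1).toNat : ℕ) : ℚ) := by exact_mod_cast hle
    refine h6.trans ?_
    have h7 : (((z1 - z0 + 1).toNat : ℕ) : ℤ) = max (z1 - z0 + 1) 0 := Int.toNat_eq_max _
    have h8 : (((z1 - z0 + 1).toNat : ℕ) : ℚ) = ((max (z1 - z0 + 1) 0 : ℤ) : ℚ) := by
      exact_mod_cast congrArg (Int.cast (R := ℚ)) h7
    rw [h8]
    push_cast
    rw [max_comm]

end Pool.HMS
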