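import Pool.Agent.H76.HMS.SvStmts

/-!
# HMS, module VLS: the two notions of solution of a state agree
-/

set_option autoImplicit false

namespace Pool.HMS

open TMLib Finset

/-- Converse of the fourth part of VRL. -/
theorem repP_blocks42 (d : ℕ) (rows : Mat) : ∀ (p : List ENode) (t : ℕ → ℚ), t ∈ RepP d rows p →
    ∃ us : ℕ → ℕ → ℚ, (∀ l < p.length, us l ∈ IC (HP d rows (p.getD l (0, [], 0)))) ∧
      t = ∑ l ∈ range p.length,
        embH d (p.getD l (0, [], 0)).1 (p.getD l (0, [], 0)).2.1 (us l) := by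
  intro p
  induction p with
  | nil =>
    intro t ht
    have ht' : t = 0 := ht
    exact ⟨fun _ => 0, by simp, by simpa using ht'⟩
  | cons x ps ih =>
    rintro t ⟨u, hu, t', ht', rfl⟩
    obtain ⟨us, hus, hts⟩ := ih t' ht'
    refine ⟨fun l => if l = 0 then u else us (l - 1), ?_, ?_⟩
    · intro l hl
      rcases l with _ | l
      · simpa using hu
      · have := hus l (by simpa using hl)
        simpa using this
    · rw [List.length_cons, Finset.sum_range_succ']
      rw [hts, add_comm]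
      congr 1

theorem singS_sum42 (h : S_VRL) (A : Set (ℕ → ℚ)) (s : ℕ → ℕ → ℚ) : ∀ n : ℕ,
    (∀ j < n, s j = 0 ∨ s j ∈ A) → ∑ j ∈ range n, s j ∈ SingS n A := by
  intro n
  induction n with
  | zero => intro _; exact ⟨0, fun _ => 0, le_rfl, by simp, by simp⟩
  | succ n ih =>
    intro hs
    rw [Finset.sum_range_succ]
    refine h.2.1 A n 1 _ _ (ih fun j hj => hs j (by omega)) ?_
    rcases hs n (by omega) with h0 | h1
    · rw [h0]; exact ⟨0, fun _ => 0, by omega, by simp, by simp⟩
    · exact ⟨1, fun _ => s n, le_rfl, fun _ _ => h1, by simp⟩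

theorem vls_thm (h1 : S_VFL) (h2 : S_VSG) (h3 : S_VRL) (h4 : S_VCB) : S_VLS := by
  intro d rows y S hrec
  obtain ⟨hsg, -⟩ := h2 d rows hrec
  refine ⟨⟨?_, ?_⟩, ?_⟩
  · rintro ⟨v, ⟨k, a, hk, ha, hv⟩, t, ht, hy⟩
    obtain ⟨us, hus, htu⟩ := repP_blocks42 d rows S.2 t ht
    have hlat : ∀ i < k, Lat (d + 1) (a i) := by
      intro i hi
      refine h4.2.2.2.1 d rows (a i) ⟨1, fun _ => a i, fun _ _ => ha i hi, by simp⟩
    have hLu : ∀ l < S.2.length, Lat ((nodeAt S l).1 + 1) (us l) := by
      intro l hl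
      exact h4.2.2.2.1 _ _ (us l) (hus l hl)
    have hs : ∀ j < S.1, Lat (d + 1) (if j < k then a j else 0) := by
      intro j hj
      by_cases hjk : j < k
      · rw [if_pos hjk]; exact hlat j hjk
      · rw [if_neg hjk]
        exact ⟨fun i _ => rfl, fun i => ⟨0, by simp⟩⟩
    obtain ⟨z, hz0, hz1, hz2, hz3⟩ := h1 d S (fun j => if j < k then a j else 0) us
      (fun j hj => (hs j hj).1) (fun l hl => (hLu l hl).1)
    refine ⟨z, ⟨hz0, hz3 (fun j hj => (hs j hj).2) (fun l hl => (hLu l hl).2)⟩, ?_, ?_, ?_⟩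
    · intro j hj
      rw [hz1 j hj]
      refine (hsg _ (hs j hj)).2 ?_
      by_cases hjk : j < k
      · right; simp only [if_pos hjk]; exact ha j hjk
      · left; simp only [if_neg hjk]
    · intro l hl
      rw [hz2 l hl]
      exact hus l hl
    · unfold totS
      have e1 : ∑ j ∈ range S.1, sgl d z j = v := by
        rw [Finset.sum_congr rfl fun j hj => hz1 j (Finset.mem_range.1 hj), hv]
        rw [← Finset.sum_filter]
        refine Finset.sum_congr ?_ fun _ _ => rfl
        ext j
        simp only [Finset.mem_filter, Finset.mem_range]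
        omega
      have e2 : ∑ l ∈ range S.2.length,
          embH d (nodeAt S l).1 (nodeAt S l).2.1 (pcl d S z l) = t := by
        rw [htu]
        refine Finset.sum_congr rfl fun l hl => ?_
        rw [hz2 l (Finset.mem_range.1 hl)]
        rfl
      rw [e1, e2, hy]
  · rintro ⟨z, hz0, hz1, hz2, hz3⟩
    refine ⟨∑ j ∈ range S.1, sgl d z j, ?_, ∑ l ∈ range S.2.length,
      embH d (nodeAt S l).1 (nodeAt S l).2.1 (pcl d S z l), ?_, ?_⟩
    · refine singS_sum42 h3 _ _ _ fun j hj => ?_
      refine (hsg _ ⟨?_, ?_⟩).1 (hz1 j hj)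
      · intro i hi
        show (if i < d + 1 then z (j * (d + 1) + i) else 0) = 0
        rw [if_neg (by omega)]
      · intro i
        show IsI (if i < d + 1 then z (j * (d + 1) + i) else 0)
        split_ifs
        · exact hz0.2 _
        · exact ⟨0, by simp⟩
    · exact h3.2.2.2 d rows S.2 (pcl d S z) hz2
    · exact hz3.symm
  · rintro z ⟨hz0, hz1, hz2, hz3⟩
    exact ⟨hz0.1, hz1, fun l hl => (h4.2.1 _).2.2 (hz2 l hl), hz3⟩

end Pool.HMS
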