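import Pool.Agent.H76.HMS.SvStmts

/-!
# HMS, module VRT: the root of the recursion
-/

set_option autoImplicit false

namespace Pool.HMS

open TMLib Finset

theorem vrt_thm (h1 : S_EAP) (h2 : S_VPR) : S_VRT := by
  intro d rows y B hy
  have hid := h1.2.2.2.2.2.2.1
  obtain ⟨hP, hE, hA, -, -⟩ := h2
  have hPoly : Poly d (rowsOf d rows (d, idMat d, B)) = Poly d rows := by
    have h3 := hP d rows (d, idMat d, B)
    simp only at h3
    rw [h3]
    ext x
    constructor
    · rintro ⟨hx, hxK⟩
      have h4 : appF d d (idMat d) x ∈ Poly d rows := hxK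
      rwa [hid d x hx] at h4
    · intro hx
      refine ⟨hx.1, ?_⟩
      show appF d d (idMat d) x ∈ Poly d rows
      rw [hid d x hx.1]
      exact hx
  have hHA : HP d rows (d, idMat d, B) = HA d rows := by
    unfold HP HA LP
    simp only [hPoly]
  have hzero : embH d d (idMat d) (0 : ℕ → ℚ) = 0 := by
    have h5 := hA d d (idMat d) 0 0
    rw [add_zero] at h5
    funext i
    have h6 := congrFun h5 i
    simp only [Pi.add_apply] at h6
    show embH d d (idMat d) 0 i = 0
    linarith
  have hsum : ∀ (k : ℕ) (a : ℕ → ℕ → ℚ), (∀ i < k, a i ∈ HA d rows) →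
      embH d d (idMat d) (∑ i ∈ range k, a i) = ∑ i ∈ range k, a i := by
    intro k
    induction k with
    | zero => intro a _; simpa using hzero
    | succ k ih =>
      intro a ha
      rw [Finset.sum_range_succ, hA, ih a (fun i hi => ha i (by omega))]
      congr 1
      obtain ⟨x, hx, hxa⟩ := ha k (by omega)
      rw [← hxa, hE, hid d x hx.1.1]
  refine ⟨0, ⟨0, fun _ => 0, by simp, by simp, by simp⟩, fn y, ?_, by simp⟩
  show fn y ∈ RepP d rows [(d, idMat d, B)]
  refine ⟨fn y, ?_, 0, rfl, ?_⟩
  · rw [hHA]; exact hy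
  · obtain ⟨k, a, ha, hya⟩ := hy
    show fn y = embH d d (idMat d) (fn y) + 0
    rw [add_zero, hya, hsum k a ha]

end Pool.HMS
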