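import Pool.Agent.H76.HMS.SvStmts

/-!
# HMS, modules VS0 and VRT: the root of the recursion
-/

set_option autoImplicit false

namespace Pool.HMS

open TMLib Finset

theorem vs0_thm (h1 : S_EID) (h2 : S_EAP) : S_VS0 := by
  intro C w d B rows hC hB h2B hbox
  have hid := h2.2.2.2.2.2.2.1
  have hrk : rkS w (0, [(d, idMat d, B)]) = sRk w d := by simp [rkS]
  refine ⟨⟨?_, hrk.le, ?_⟩, hrk.le⟩
  · intro p hp
    have hp' : p = (d, idMat d, B) := by simpa using hp
    subst hp'
    refine ⟨h1 C d B hC hB h2B, ?_⟩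
    rintro y ⟨hy, hyK⟩
    have h3 : appF d d (idMat d) y = y := hid d y hy
    have h4 : appF d d (idMat d) y ∈ Poly d rows := hyK
    rw [h3] at h4
    exact hbox y h4
  · rw [hrk]
    simp [dimS, offs, dimB]

end Pool.HMS
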